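import Mathlib

/-!
A class of size 3 in a group without subgroups of index 2 (note OR of helper78, step (6a)).
-/

namespace Pool.Agent.H15.OR

/-- A subgroup of index 3 is normal if there is no subgroup of index 2. -/
theorem conj_mem_of_index_three {G : Type} [Group G] [Fintype G]
    (h2 : ∀ H : Subgroup G, H.index ≠ 2) (C : Subgroup G) (h3 : C.index = 3) :
    ∀ x ∈ C, ∀ g : G, g⁻¹ * x * g ∈ C := by
  classical
  intro x hx g
  set φ : G →* Equiv.Perm (G ⧸ C) := MulAction.toPermHom G (G ⧸ C) with hφ
  set ψ : G →* ℤˣ := Equiv.Perm.sign.comp φ with hψ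
  have hψ1 : ∀ y : G, ψ y = 1 := by
    have hidx : ψ.ker.index = Nat.card ψ.range := Subgroup.index_ker ψ
    have hdvd : Nat.card ψ.range ∣ 2 := by
      have h := Subgroup.card_subgroup_dvd_card ψ.range
      simpa using h
    have hle : ψ.ker.index = 1 := by
      rcases (Nat.dvd_prime Nat.prime_two).mp hdvd with h | h
      · rw [hidx, h]
      · exact absurd (hidx.trans h) (h2 _)
    intro y
    have htop : ψ.ker = ⊤ := Subgroup.index_eq_one.mp hle
    have : y ∈ ψ.ker := by rw [htop]; exact Subgroup.mem_top y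
    exact this
  have hcard : Fintype.card (G ⧸ C) = 3 := by
    rw [← Nat.card_eq_fintype_card]
    exact h3
  have hfix : φ x ((1 : G) : G ⧸ C) = ((1 : G) : G ⧸ C) := by
    show x • ((1 : G) : G ⧸ C) = ((1 : G) : G ⧸ C)
    rw [MulAction.Quotient.smul_coe, smul_eq_mul, mul_one, QuotientGroup.eq]
    simpa using C.inv_mem hx
  have hone : φ x = 1 := by
    by_contra hne
    have h1 : 1 < (φ x).support.card := Equiv.Perm.one_lt_card_support_of_ne_one hne
    have h2' : (φ x).support.card < 3 := by
      rw [← hcard, ← Finset.card_univ]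
      apply Finset.card_lt_card
      rw [Finset.ssubset_univ_iff]
      intro h
      have : ((1 : G) : G ⧸ C) ∈ (φ x).support := by rw [h]; exact Finset.mem_univ _
      exact (Equiv.Perm.mem_support.mp this) hfix
    have h3' : (φ x).support.card = 2 := by omega
    have hs : (φ x).IsSwap := Equiv.Perm.card_support_eq_two.mp h3'
    have h4 : Equiv.Perm.sign (φ x) = -1 := hs.sign_eq
    have h5 : Equiv.Perm.sign (φ x) = 1 := hψ1 x
    rw [h5] at h4
    exact absurd h4 (by decide)
  have hg : φ x ((g : G) : G ⧸ C) = ((g : G) : G ⧸ C) := by rw [hone]; rfl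
  have hg' : x • ((g : G) : G ⧸ C) = ((g : G) : G ⧸ C) := hg
  rw [MulAction.Quotient.smul_coe, smul_eq_mul, QuotientGroup.eq] at hg'
  have h6 := C.inv_mem hg'
  simpa [mul_assoc] using h6

/-- Step (6a): an element of order 3 with 3 conjugates in a group without subgroups of index 2
lies in a subgroup of order at least 9, of odd order, which commutes with its centralizer. -/
theorem exists_nine {G : Type} [Group G] [Fintype G] (h2 : ∀ H : Subgroup G, H.index ≠ 2)
    (c : G) (hc : orderOf c = 3) (h3 : (Subgroup.centralizer ({c} : Set G)).index = 3) :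
    ∃ A : Subgroup G, 9 ≤ Nat.card A ∧ Odd (Nat.card A) ∧
      ∀ a ∈ A, ∀ x ∈ Subgroup.centralizer ({c} : Set G), a * x = x * a := by
  classical
  set C : Subgroup G := Subgroup.centralizer ({c} : Set G) with hC
  have hmem : ∀ y : G, y ∈ C ↔ c * y = y * c := by
    intro y
    rw [hC, Subgroup.mem_centralizer_iff]
    simp
  have hconj := conj_mem_of_index_three h2 C h3
  -- a conjugate commutes with `C`
  have hcomm : ∀ g x : G, x ∈ C → (g * c * g⁻¹) * x = x * (g * c * g⁻¹) := by
    intro g x hx
    have h := (hmem _).mp (hconj x hx g)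
    calc (g * c * g⁻¹) * x = g * (c * (g⁻¹ * x * g)) * g⁻¹ := by group
      _ = g * ((g⁻¹ * x * g) * c) * g⁻¹ := by rw [h]
      _ = x * (g * c * g⁻¹) := by group
  -- an element outside `C`
  have hnt : ∃ g : G, g ∉ C := by
    by_contra hcon
    push Not at hcon
    have : C = ⊤ := by
      rw [Subgroup.eq_top_iff']
      exact hcon
    rw [this, Subgroup.index_top] at h3
    omega
  obtain ⟨g, hg⟩ := hnt
  have hnormal : C.Normal := ⟨fun n hn w => by
    have := hconj n hn w⁻¹
    simpa using this⟩
  have hcC : c ∈ C := (hmem c).mpr rfl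
  set d : G := g * c * g⁻¹ with hd
  have hdne : d ≠ c := by
    intro h
    apply hg
    rw [hmem]
    have : g * c = c * g := by
      calc g * c = (g * c * g⁻¹) * g := by group
        _ = c * g := by rw [← hd, h]
    exact this.symm
  have hd3 : d ^ 3 = 1 := by
    rw [hd, conj_pow, ← hc, pow_orderOf_eq_one]
    group
  have hc3 : c ^ 3 = 1 := by rw [← hc, pow_orderOf_eq_one]
  have hc1 : c ≠ 1 := by
    intro h
    rw [h, orderOf_one] at hc
    omega
  have hd1 : d ≠ 1 := by
    intro h
    apply hc1
    have : c = g⁻¹ * d * g := by rw [hd]; group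
    rw [this, h]
    group
  have hdinv : d ≠ c ^ 2 := by
    intro h
    -- then g^2 commutes with c, and g^3 ∈ C, so g ∈ C
    have h4 : g * g * c = c * (g * g) := by
      have h5 : g * c * g⁻¹ = c ^ 2 := h
      have h6 : g * c = c ^ 2 * g := by
        calc g * c = (g * c * g⁻¹) * g := by group
          _ = c ^ 2 * g := by rw [h5]
      calc g * g * c = g * (g * c) := by group
        _ = g * (c ^ 2 * g) := by rw [h6]
        _ = (g * c) * (c * g) := by rw [pow_two]; group
        _ = (c ^ 2 * g) * (c * g) := by rw [h6]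
        _ = c ^ 2 * (g * c) * g := by group
        _ = c ^ 2 * (c ^ 2 * g) * g := by rw [h6]
        _ = c ^ 3 * (c * (g * g)) := by group
        _ = c * (g * g) := by rw [hc3, one_mul]
    have h7 : g ^ 2 ∈ C := by
      rw [hmem, pow_two]
      exact h4.symm
    have h8 : g ^ 3 ∈ C := by
      have := Subgroup.pow_index_mem C g
      rwa [h3] at this
    apply hg
    have : g = g ^ 3 * (g ^ 2)⁻¹ := by group
    rw [this]
    exact C.mul_mem h8 (C.inv_mem h7)
  have hdz : d ∉ Subgroup.zpowers c := by
    intro h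
    rw [mem_zpowers_iff_mem_range_orderOf] at h
    rw [hc] at h
    simp only [Finset.mem_image, Finset.mem_range] at h
    obtain ⟨k, hk, hk'⟩ := h
    interval_cases k
    · exact hd1 (by rw [← hk', pow_zero])
    · exact hdne (by rw [← hk', pow_one])
    · exact hdinv hk'.symm
  -- the subgroup
  have hcardc : Nat.card (Subgroup.zpowers c) = 3 := by rw [Nat.card_zpowers, hc]
  have hordd : orderOf d = 3 := orderOf_eq_prime hd3 hd1
  have hcardd : Nat.card (Subgroup.zpowers d) = 3 := by rw [Nat.card_zpowers, hordd]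
  have hpc : IsPGroup 3 (Subgroup.zpowers c) := IsPGroup.of_card (n := 1) (by rw [hcardc, pow_one])
  have hpd : IsPGroup 3 (Subgroup.zpowers d) := IsPGroup.of_card (n := 1) (by rw [hcardd, pow_one])
  have hcd : d * c = c * d := hcomm g c hcC
  have hcentc : Subgroup.zpowers c ≤ Subgroup.centralizer (C : Set G) := by
    rw [Subgroup.zpowers_le, Subgroup.mem_centralizer_iff]
    intro x hx
    exact ((hmem x).mp hx).symm
  have hcentd : Subgroup.zpowers d ≤ Subgroup.centralizer (C : Set G) := by
    rw [Subgroup.zpowers_le, Subgroup.mem_centralizer_iff]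
    intro x hx
    exact (hcomm g x hx).symm
  have hnorm : Subgroup.zpowers c ≤ Subgroup.normalizer (Subgroup.zpowers d : Set G) := by
    rw [Subgroup.zpowers_le]
    have h9 : c ∈ Subgroup.centralizer ((Subgroup.zpowers d : Subgroup G) : Set G) := by
      rw [Subgroup.mem_centralizer_iff]
      intro x hx
      obtain ⟨k, rfl⟩ := Subgroup.mem_zpowers_iff.mp hx
      exact (show Commute d c from hcd).zpow_left k
    exact Subgroup.centralizer_le_normalizer _ h9
  have hp : IsPGroup 3 (Subgroup.zpowers c ⊔ Subgroup.zpowers d : Subgroup G) :=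
    hpc.to_sup_of_normal_right' hpd hnorm
  have : Fact (Nat.Prime 3) := ⟨Nat.prime_three⟩
  obtain ⟨k, hk⟩ := IsPGroup.iff_card.mp hp
  refine ⟨Subgroup.zpowers c ⊔ Subgroup.zpowers d, ?_, ?_, ?_⟩
  · have hlt : 3 < Nat.card (Subgroup.zpowers c ⊔ Subgroup.zpowers d : Subgroup G) := by
      by_contra hcon
      push Not at hcon
      have heq : Subgroup.zpowers c = Subgroup.zpowers c ⊔ Subgroup.zpowers d :=
        Subgroup.eq_of_le_of_card_ge le_sup_left (by rw [hcardc]; exact hcon)
      apply hdz
      rw [heq]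
      exact (le_sup_right : Subgroup.zpowers d ≤ _) (Subgroup.mem_zpowers d)
    rw [hk] at hlt ⊢
    have h2k : 2 ≤ k := by
      by_contra hcon
      push Not at hcon
      interval_cases k <;> omega
    calc 9 = 3 ^ 2 := by norm_num
      _ ≤ 3 ^ k := Nat.pow_le_pow_right (by norm_num) h2k
  · rw [hk]
    exact Odd.pow (by decide)
  · intro a ha x hx
    have h10 : a ∈ Subgroup.centralizer (C : Set G) := (sup_le hcentc hcentd) ha
    rw [Subgroup.mem_centralizer_iff] at h10
    exact (h10 x hx).symm

end Pool.Agent.H15.OR
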